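import Pool.Agent.R271.NIMain

namespace Pool.Agent.Results.MP_6da9ed_an.UltrapowerIndex

open Filter Topology
open Pool.Agent.R271.NI

/-- The norm of the ultrapower `X_U` is `lim_U ‖x_k‖`. -/
def NormIsLimit (U : Ultrafilter ℕ) (X : Type) [NormedAddCommGroup X] [NormedSpace ℝ X] : Prop :=
  ∀ x : BSeq X, Tendsto (fun k => ‖x.at k‖) (U : Filter ℕ) (𝓝 ‖UPower.mk U x‖)

/-- `n(X) > 0`, and `n(X_U) = 0` for every free ultrafilter `U` on `ℕ`. -/
def IndexDrops (X : Type) [NormedAddCommGroup X] [NormedSpace ℝ X] : Prop :=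
  0 < numIndex X ∧ ∀ U : Ultrafilter ℕ, (U : Filter ℕ) ≤ Filter.cofinite →
    NormIsLimit U X ∧ numIndex (UPower U X) = 0

/-- There is a real Banach space `X` with `n(X) > 0` such that `n(X_U) = 0` for every free
ultrafilter `U` on `ℕ`. -/
theorem result :
    ∃ (X : Type) (_ : NormedAddCommGroup X) (_ : NormedSpace ℝ X) (_ : CompleteSpace X),
      IndexDrops X := by
  refine ⟨BX, inferInstance, inferInstance, inferInstance, numIndex_BX_pos, fun U hU => ?_⟩
  have hU' : (U : Filter ℕ) ≤ atTop := by rwa [Nat.cofinite_eq_atTop] at hU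
  exact ⟨tendsto_norm_mk U, numIndex_UPower U hU'⟩

end Pool.Agent.Results.MP_6da9ed_an.UltrapowerIndex
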